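import Mathlib

/-!
# Adjoint action and unipotent kernels of homomorphisms of Hopf algebras: definitions
-/

set_option autoImplicit false

open scoped TensorProduct

namespace Pool.Agent.Helper90.UN

universe u

variable (k : Type u) [Field k] {B : Type u} [Ring B] [HopfAlgebra k B]

/-- The left adjoint action `b ▷ x = ∑ b₁ x S(b₂)` of a Hopf algebra on itself. -/
noncomputable def adj (b x : B) : B :=
  LinearMap.mul' k B (TensorProduct.map (LinearMap.mulRight k x) (HopfAlgebra.antipode k)
    (Coalgebra.comul b))

end Pool.Agent.Helper90.UN
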