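import Mathlib
import Pool.Agent.Helper90.UN.Defs

/-!
# The comultiplication of `b ▷ v` for a primitive element `v`

`Δ(b ▷ v) = (b ▷ v) ⊗ 1 + ∑ b₁ S(b₃) ⊗ (b₂ ▷ v)`. Both sides are functions of `b`; in the
convolution algebra of the linear maps `B → B ⊗ B` their products with `Δ` agree, and `Δ` is
invertible.
-/

set_option autoImplicit false

open scoped TensorProduct
open WithConv

namespace Pool.Agent.Helper90.UN

universe u

variable {k : Type u} [Field k] {B : Type u} [Ring B] [HopfAlgebra k B]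

/-- `b ↦ b ▷ x` as a linear map. -/
noncomputable def adR (k : Type u) [Field k] {B : Type u} [Ring B] [HopfAlgebra k B] (x : B) :
    B →ₗ[k] B :=
  (toConv (LinearMap.mulRight k x) * toConv (HopfAlgebra.antipode k (A := B))).ofConv

theorem adR_apply (b x : B) : adR k x b = adj k b x := rfl

theorem adR_mul_id (x : B) : toConv (adR k x) * toConv (LinearMap.id : B →ₗ[k] B) =
    toConv (LinearMap.mulRight k x) := by
  have h : toConv (adR k x) = toConv (LinearMap.mulRight k x) *
    toConv (HopfAlgebra.antipode k (A := B)) := rfl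
  rw [h, mul_assoc, LinearMap.antipode_mul_id, mul_one]

/-- `a ↦ a ⊗ 1` -/
noncomputable def il (k : Type u) [Field k] (B : Type u) [Ring B] [HopfAlgebra k B] :
    B →ₐ[k] B ⊗[k] B := Algebra.TensorProduct.includeLeft

/-- `a ↦ 1 ⊗ a` -/
noncomputable def ir (k : Type u) [Field k] (B : Type u) [Ring B] [HopfAlgebra k B] :
    B →ₐ[k] B ⊗[k] B := Algebra.TensorProduct.includeRight

theorem il_apply (a : B) : il k B a = a ⊗ₜ[k] 1 := rfl

theorem ir_apply (a : B) : ir k B a = 1 ⊗ₜ[k] a := rfl

/-- convolution of two maps composed with an algebra homomorphism -/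
theorem comp_conv {A : Type u} [Ring A] [Algebra k A] (h : B →ₐ[k] A) (f g : B →ₗ[k] B) :
    toConv (h.toLinearMap ∘ₗ (toConv f * toConv g).ofConv) =
      toConv (h.toLinearMap ∘ₗ f) * toConv (h.toLinearMap ∘ₗ g) := by
  rw [LinearMap.algHom_comp_convMul_distrib]

theorem comp_one {A : Type u} [Ring A] [Algebra k A] (h : B →ₐ[k] A) :
    toConv (h.toLinearMap ∘ₗ (1 : WithConv (B →ₗ[k] B)).ofConv) = 1 := by
  ext b
  change h (algebraMap k B (Coalgebra.counit b)) = algebraMap k A (Coalgebra.counit b)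
  exact h.commutes _

theorem conv_ofConv (f g : WithConv (B →ₗ[k] B)) : toConv (f * g).ofConv = f * g := rfl

/-- `(h ∘ S) * h = 1` for an algebra homomorphism `h` -/
theorem compS_mul {A : Type u} [Ring A] [Algebra k A] (h : B →ₐ[k] A) :
    toConv (h.toLinearMap ∘ₗ HopfAlgebra.antipode k (A := B)) * toConv h.toLinearMap = 1 := by
  have h1 := comp_conv h (HopfAlgebra.antipode k (A := B)) LinearMap.id
  rw [LinearMap.antipode_mul_id, comp_one] at h1
  exact h1.symm

/-- `h * (h ∘ S) = 1` for an algebra homomorphism `h` -/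
theorem mul_compS {A : Type u} [Ring A] [Algebra k A] (h : B →ₐ[k] A) :
    toConv h.toLinearMap * toConv (h.toLinearMap ∘ₗ HopfAlgebra.antipode k (A := B)) = 1 := by
  have h1 := comp_conv h LinearMap.id (HopfAlgebra.antipode k (A := B))
  rw [LinearMap.id_mul_antipode, comp_one] at h1
  exact h1.symm

/-- `b ↦ ∑ b₁ S(b₃) ⊗ b₂` -/
noncomputable def kk (k : Type u) [Field k] (B : Type u) [Ring B] [HopfAlgebra k B] :
    B →ₗ[k] B ⊗[k] B :=
  (toConv (il k B).toLinearMap * (toConv (ir k B).toLinearMap *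
    toConv ((il k B).toLinearMap ∘ₗ HopfAlgebra.antipode k (A := B)))).ofConv

theorem map_il_ir (t : B ⊗[k] B) : LinearMap.mul' k (B ⊗[k] B)
    (TensorProduct.map (il k B).toLinearMap (ir k B).toLinearMap t) = t := by
  induction t using TensorProduct.induction_on with
  | zero => simp
  | add s t hs ht => rw [map_add, map_add, hs, ht]
  | tmul a b =>
    rw [TensorProduct.map_tmul, LinearMap.mul'_apply]
    change (a ⊗ₜ[k] (1 : B)) * ((1 : B) ⊗ₜ[k] b) = _
    rw [Algebra.TensorProduct.tmul_mul_tmul, mul_one, one_mul]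

theorem comul_eq : toConv (Bialgebra.comulAlgHom k B).toLinearMap =
    toConv (il k B).toLinearMap * toConv (ir k B).toLinearMap := by
  ext b
  exact (map_il_ir (Coalgebra.comul (R := k) b)).symm

/-- a linear map on the second factor commutes with left multiplication by `a ⊗ 1` -/
theorem lT_mul (φ : B →ₗ[k] B) (a : B) (t : B ⊗[k] B) :
    LinearMap.lTensor B φ (il k B a * t) = il k B a * LinearMap.lTensor B φ t := by
  induction t using TensorProduct.induction_on with
  | zero => simp
  | add s t hs ht => rw [mul_add, map_add, map_add, mul_add, hs, ht]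
  | tmul x y =>
    rw [il_apply, Algebra.TensorProduct.tmul_mul_tmul, LinearMap.lTensor_tmul,
      LinearMap.lTensor_tmul, Algebra.TensorProduct.tmul_mul_tmul, one_mul, one_mul]

theorem lT_il (φ : B →ₗ[k] B) (X : B →ₗ[k] B ⊗[k] B) :
    toConv (LinearMap.lTensor B φ ∘ₗ (toConv (il k B).toLinearMap * toConv X).ofConv) =
      toConv (il k B).toLinearMap * toConv (LinearMap.lTensor B φ ∘ₗ X) := by
  have h : ∀ t : B ⊗[k] B, LinearMap.lTensor B φ (LinearMap.mul' k (B ⊗[k] B)
      (TensorProduct.map (il k B).toLinearMap X t)) = LinearMap.mul' k (B ⊗[k] B)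
      (TensorProduct.map (il k B).toLinearMap (LinearMap.lTensor B φ ∘ₗ X) t) := by
    intro t
    induction t using TensorProduct.induction_on with
    | zero => simp
    | add s t hs ht => simp only [map_add, hs, ht]
    | tmul a b =>
      rw [TensorProduct.map_tmul, TensorProduct.map_tmul, LinearMap.mul'_apply,
        LinearMap.mul'_apply]
      exact lT_mul φ a (X b)
  ext b
  exact h (Coalgebra.comul (R := k) b)

theorem lT_irS (φ : B →ₗ[k] B) :
    toConv (LinearMap.lTensor B φ ∘ₗ (toConv (ir k B).toLinearMap *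
      toConv ((il k B).toLinearMap ∘ₗ HopfAlgebra.antipode k (A := B))).ofConv) =
      toConv ((ir k B).toLinearMap ∘ₗ φ) *
        toConv ((il k B).toLinearMap ∘ₗ HopfAlgebra.antipode k (A := B)) := by
  have h : ∀ t : B ⊗[k] B, LinearMap.lTensor B φ (LinearMap.mul' k (B ⊗[k] B)
      (TensorProduct.map (ir k B).toLinearMap
        ((il k B).toLinearMap ∘ₗ HopfAlgebra.antipode k (A := B)) t)) =
      LinearMap.mul' k (B ⊗[k] B) (TensorProduct.map ((ir k B).toLinearMap ∘ₗ φ)
        ((il k B).toLinearMap ∘ₗ HopfAlgebra.antipode k (A := B)) t) := by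
    intro t
    induction t using TensorProduct.induction_on with
    | zero => simp
    | add s t hs ht => simp only [map_add, hs, ht]
    | tmul a b =>
      rw [TensorProduct.map_tmul, TensorProduct.map_tmul, LinearMap.mul'_apply,
        LinearMap.mul'_apply]
      change LinearMap.lTensor B φ (((1 : B) ⊗ₜ[k] a) *
        ((HopfAlgebra.antipode k b) ⊗ₜ[k] (1 : B))) = ((1 : B) ⊗ₜ[k] (φ a)) *
        ((HopfAlgebra.antipode k b) ⊗ₜ[k] (1 : B))
      rw [Algebra.TensorProduct.tmul_mul_tmul, Algebra.TensorProduct.tmul_mul_tmul, one_mul,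
        mul_one, mul_one, LinearMap.lTensor_tmul]
  ext b
  exact h (Coalgebra.comul (R := k) b)

/-- `(id ⊗ φ)(∑ b₁ S(b₃) ⊗ b₂)` as a convolution product -/
theorem lT_kk (φ : B →ₗ[k] B) : toConv (LinearMap.lTensor B φ ∘ₗ kk k B) =
    toConv (il k B).toLinearMap * (toConv ((ir k B).toLinearMap ∘ₗ φ) *
      toConv ((il k B).toLinearMap ∘ₗ HopfAlgebra.antipode k (A := B))) := by
  have h1 := lT_il φ ((toConv (ir k B).toLinearMap *
    toConv ((il k B).toLinearMap ∘ₗ HopfAlgebra.antipode k (A := B))).ofConv)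
  rw [lT_irS] at h1
  exact h1

theorem lT_counit (b : B) : LinearMap.lTensor B
    (Algebra.linearMap k B ∘ₗ Coalgebra.counit) (kk k B b) =
      algebraMap k (B ⊗[k] B) (Coalgebra.counit b) := by
  have h1 := lT_kk (k := k) (B := B) (Algebra.linearMap k B ∘ₗ Coalgebra.counit)
  have h2 : toConv ((ir k B).toLinearMap ∘ₗ (Algebra.linearMap k B ∘ₗ Coalgebra.counit)) =
      (1 : WithConv (B →ₗ[k] B ⊗[k] B)) := comp_one (ir k B)
  rw [h2, one_mul, mul_compS] at h1
  exact LinearMap.congr_fun (congrArg ofConv h1) b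

/-- The formula for the comultiplication. -/
theorem comul_adj (v : B) (hv : Coalgebra.comul (R := k) v = v ⊗ₜ[k] 1 + 1 ⊗ₜ[k] v) (b : B) :
    Coalgebra.comul (R := k) (adj k b v) =
      adj k b v ⊗ₜ[k] 1 + LinearMap.lTensor B (adR k v) (kk k B b) := by
  let D : WithConv (B →ₗ[k] B ⊗[k] B) := toConv (Bialgebra.comulAlgHom k B).toLinearMap
  let DS : WithConv (B →ₗ[k] B ⊗[k] B) :=
    toConv ((Bialgebra.comulAlgHom k B).toLinearMap ∘ₗ HopfAlgebra.antipode k (A := B))
  let Il : WithConv (B →ₗ[k] B ⊗[k] B) := toConv (il k B).toLinearMap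
  let Ir : WithConv (B →ₗ[k] B ⊗[k] B) := toConv (ir k B).toLinearMap
  let IlS : WithConv (B →ₗ[k] B ⊗[k] B) :=
    toConv ((il k B).toLinearMap ∘ₗ HopfAlgebra.antipode k (A := B))
  have hD : D * DS = 1 := mul_compS _
  have hD' : D = Il * Ir := comul_eq
  have hI : IlS * Il = 1 := compS_mul _
  let F : WithConv (B →ₗ[k] B ⊗[k] B) :=
    toConv ((Bialgebra.comulAlgHom k B).toLinearMap ∘ₗ adR k v)
  let G₁ : WithConv (B →ₗ[k] B ⊗[k] B) := toConv ((il k B).toLinearMap ∘ₗ adR k v)
  let G₂ : WithConv (B →ₗ[k] B ⊗[k] B) :=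
    Il * (toConv ((ir k B).toLinearMap ∘ₗ adR k v) * IlS)
  have hcomp : ∀ (h : B →ₐ[k] B ⊗[k] B), toConv (h.toLinearMap ∘ₗ adR k v) *
      toConv h.toLinearMap = toConv (h.toLinearMap ∘ₗ LinearMap.mulRight k v) := by
    intro h
    have h1 := comp_conv h (adR k v) LinearMap.id
    rw [adR_mul_id] at h1
    exact h1.symm
  have hF : F * D = toConv ((Bialgebra.comulAlgHom k B).toLinearMap ∘ₗ
      LinearMap.mulRight k v) := hcomp _
  have hG₁ : G₁ * D = toConv ((il k B).toLinearMap ∘ₗ LinearMap.mulRight k v) * Ir := by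
    rw [hD', ← mul_assoc]
    exact congrArg (· * Ir) (hcomp (il k B))
  have hG₂ : G₂ * D = Il * toConv ((ir k B).toLinearMap ∘ₗ LinearMap.mulRight k v) := by
    have h1 : G₂ * D = Il * (toConv ((ir k B).toLinearMap ∘ₗ adR k v) * ((IlS * Il) * Ir)) := by
      rw [hD']
      simp only [G₂, mul_assoc]
    rw [h1, hI, one_mul]
    exact congrArg (Il * ·) (hcomp (ir k B))
  have e1 : ∀ t : B ⊗[k] B, LinearMap.mul' k (B ⊗[k] B)
      (TensorProduct.map ((il k B).toLinearMap ∘ₗ LinearMap.mulRight k v)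
        (ir k B).toLinearMap t) = t * (v ⊗ₜ[k] 1) := by
    intro t
    induction t using TensorProduct.induction_on with
    | zero => simp
    | add s t hs ht => rw [map_add, map_add, hs, ht, add_mul]
    | tmul a b =>
      rw [TensorProduct.map_tmul, LinearMap.mul'_apply]
      change ((a * v) ⊗ₜ[k] (1 : B)) * ((1 : B) ⊗ₜ[k] b) = _
      rw [Algebra.TensorProduct.tmul_mul_tmul, Algebra.TensorProduct.tmul_mul_tmul, mul_one,
        one_mul, mul_one]
  have e2 : ∀ t : B ⊗[k] B, LinearMap.mul' k (B ⊗[k] B)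
      (TensorProduct.map (il k B).toLinearMap
        ((ir k B).toLinearMap ∘ₗ LinearMap.mulRight k v) t) = t * (1 ⊗ₜ[k] v) := by
    intro t
    induction t using TensorProduct.induction_on with
    | zero => simp
    | add s t hs ht => rw [map_add, map_add, hs, ht, add_mul]
    | tmul a b =>
      rw [TensorProduct.map_tmul, LinearMap.mul'_apply]
      change (a ⊗ₜ[k] (1 : B)) * ((1 : B) ⊗ₜ[k] (b * v)) = _
      rw [Algebra.TensorProduct.tmul_mul_tmul, Algebra.TensorProduct.tmul_mul_tmul, mul_one,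
        one_mul]
  have hFG : F * D = (G₁ + G₂) * D := by
    rw [add_mul, hF, hG₁, hG₂]
    ext c
    change Bialgebra.comulAlgHom k B (c * v) = LinearMap.mul' k (B ⊗[k] B) (TensorProduct.map
      ((il k B).toLinearMap ∘ₗ LinearMap.mulRight k v) (ir k B).toLinearMap
      (Coalgebra.comul c)) + LinearMap.mul' k (B ⊗[k] B) (TensorProduct.map
      (il k B).toLinearMap ((ir k B).toLinearMap ∘ₗ LinearMap.mulRight k v) (Coalgebra.comul c))
    rw [e1, e2, map_mul, ← mul_add, ← hv]
    rfl
  have hFG' : F = G₁ + G₂ := by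
    have h1 := congrArg (· * DS) hFG
    simp only [mul_assoc, hD, mul_one] at h1
    exact h1
  have hG₂' : G₂ = toConv (LinearMap.lTensor B (adR k v) ∘ₗ kk k B) := (lT_kk (adR k v)).symm
  rw [hG₂'] at hFG'
  exact LinearMap.congr_fun (congrArg ofConv hFG') b

end Pool.Agent.Helper90.UN
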