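import Mathlib
import Pool.Agent.Helper90.UN.Ad

/-!
# Central primitive elements

`Uni k V`: the subspace `V` of the Hopf algebra `B` contains `1`, is a left coideal, is stable under
the adjoint action, the augmentation ideal of `B` acts nilpotently on `V`, and so does the
augmentation ideal of the dual algebra of `B` (acting through the comultiplication). We show that
such a `V` contains a nonzero central primitive element, unless it is the line of `1`.
-/

set_option autoImplicit false

open scoped TensorProduct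
open WithConv

namespace Pool.Agent.Helper90.UN

universe u

section

variable (k : Type u) [Field k] {B : Type u} [Ring B] [HopfAlgebra k B]

/-- `a ⊗ b ↦ f(a) b` -/
noncomputable def sl (f : B →ₗ[k] k) : B ⊗[k] B →ₗ[k] B :=
  (TensorProduct.lid k B).toLinearMap ∘ₗ LinearMap.rTensor B f

/-- `hit f x = ∑ f(x₁) x₂` -/
noncomputable def hit (f : B →ₗ[k] k) (x : B) : B := sl k f (Coalgebra.comul (R := k) x)

theorem sl_tmul (f : B →ₗ[k] k) (a b : B) : sl k f (a ⊗ₜ[k] b) = f a • b := rfl

theorem sl_inj {t : B ⊗[k] B} (h : ∀ f : B →ₗ[k] k, sl k f t = 0) : t = 0 := by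
  classical
  obtain ⟨c, hc⟩ := TensorProduct.eq_repr_basis_left (Module.Basis.ofVectorSpace k B) t
  have h0 : c = 0 := by
    ext i
    have h1 := h ((Module.Basis.ofVectorSpace k B).coord i)
    rw [← hc, Finsupp.sum, map_sum] at h1
    rw [Finset.sum_eq_single i] at h1
    · rw [sl_tmul, Module.Basis.coord_apply, Module.Basis.repr_self, Finsupp.single_eq_same,
        one_smul] at h1
      exact h1
    · intro j _ hj
      rw [sl_tmul, Module.Basis.coord_apply, Module.Basis.repr_self,
        Finsupp.single_eq_of_ne (Ne.symm hj), zero_smul]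
    · intro hi
      rw [Finsupp.notMem_support_iff.1 hi, TensorProduct.tmul_zero, map_zero]
  rw [← hc, h0, Finsupp.sum_zero_index]

theorem sl_lT (f : B →ₗ[k] k) (φ : B →ₗ[k] B) (t : B ⊗[k] B) :
    sl k f (LinearMap.lTensor B φ t) = φ (sl k f t) := by
  induction t using TensorProduct.induction_on with
  | zero => simp
  | add s t hs ht => simp only [map_add, hs, ht]
  | tmul a b => rw [LinearMap.lTensor_tmul, sl_tmul, sl_tmul, map_smul]

theorem sl_sub (f g : B →ₗ[k] k) (c : k) (t : B ⊗[k] B) :
    sl k (f - c • g) t = sl k f t - c • sl k g t := by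
  induction t using TensorProduct.induction_on with
  | zero => simp
  | add s t hs ht => rw [map_add, map_add, map_add, hs, ht, smul_add]; abel
  | tmul a b =>
    rw [sl_tmul, sl_tmul, sl_tmul, LinearMap.sub_apply, LinearMap.smul_apply, sub_smul,
      smul_eq_mul, mul_smul]

theorem hit_counit (x : B) : hit k (Coalgebra.counit (R := k)) x = x := by
  unfold hit sl
  rw [LinearMap.comp_apply, Coalgebra.rTensor_counit_comul]
  change TensorProduct.lid k B ((1 : k) ⊗ₜ[k] x) = x
  rw [TensorProduct.lid_tmul, one_smul]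

theorem hit_one (f : B →ₗ[k] k) : hit k f 1 = f 1 • (1 : B) := by
  unfold hit
  rw [Bialgebra.comul_one, Algebra.TensorProduct.one_def, sl_tmul]

theorem counit_hit (f : B →ₗ[k] k) (x : B) :
    Coalgebra.counit (R := k) (hit k f x) = f x := by
  have h : ∀ t : B ⊗[k] B, Coalgebra.counit (R := k) (sl k f t) =
      f (TensorProduct.rid k B (LinearMap.lTensor B (Coalgebra.counit (R := k)) t)) := by
    intro t
    induction t using TensorProduct.induction_on with
    | zero => simp
    | add s t hs ht => simp only [map_add, hs, ht]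
    | tmul a b =>
      rw [sl_tmul, map_smul, LinearMap.lTensor_tmul, TensorProduct.rid_tmul, map_smul,
        smul_eq_mul, smul_eq_mul, mul_comm]
  rw [hit, h, Coalgebra.lTensor_counit_comul, TensorProduct.rid_tmul, one_smul]

/-- primitive elements -/
def Prim (v : B) : Prop := Coalgebra.comul (R := k) v = v ⊗ₜ[k] 1 + 1 ⊗ₜ[k] v

variable {k}

theorem Prim.counit {v : B} (hv : Prim k v) : Coalgebra.counit (R := k) v = 0 := by
  have h1 := hit_counit k v
  rw [hit, hv, map_add, sl_tmul, sl_tmul, Bialgebra.counit_one, one_smul] at h1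
  have h2 : Coalgebra.counit (R := k) v • (1 : B) = 0 := by
    rw [← sub_eq_zero] at h1
    rw [← h1]; abel
  have h3 := congrArg (Coalgebra.counit (R := k)) h2
  rw [map_smul, Bialgebra.counit_one, map_zero, smul_eq_mul, mul_one] at h3
  exact h3

variable (k) in
/-- unipotent Yetter-Drinfeld submodules of `B` -/
structure Uni (V : Submodule k B) : Prop where
  one : (1 : B) ∈ V
  coid : ∀ (f : B →ₗ[k] k), ∀ v ∈ V, hit k f v ∈ V
  ad : ∀ b : B, ∀ v ∈ V, adj k b v ∈ V
  adnil : ∃ N : ℕ, ∀ l : List B, l.length = N → (∀ b ∈ l, Coalgebra.counit (R := k) b = 0) →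
    ∀ v ∈ V, l.foldr (adj k) v = 0
  conil : ∃ N : ℕ, ∀ l : List (B →ₗ[k] k), l.length = N → (∀ f ∈ l, f 1 = 0) →
    ∀ v ∈ V, l.foldr (hit k) v = 0

variable (k) in
/-- `hit` modulo the line of `1` -/
noncomputable def tt (f : B →ₗ[k] k) (x : B) : B := hit k f x - f x • (1 : B)

theorem hit_sub_smul (f : B →ₗ[k] k) (x : B) (c : k) :
    hit k f (x - c • (1 : B)) = hit k f x - c • hit k f 1 := by
  unfold hit
  rw [map_sub, map_sub, map_smul, map_smul]

theorem foldr_tt (w : B) : ∀ l : List (B →ₗ[k] k), (∀ f ∈ l, f 1 = 0) →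
    ∃ c : k, l.foldr (tt k) w = l.foldr (hit k) w - c • (1 : B) := by
  intro l
  induction l with
  | nil => intro _; exact ⟨0, by simp⟩
  | cons f l ih =>
    intro hl
    obtain ⟨c, hc⟩ := ih fun g hg => hl g (List.mem_cons_of_mem _ hg)
    refine ⟨f (l.foldr (tt k) w), ?_⟩
    rw [List.foldr_cons, List.foldr_cons]
    change hit k f (l.foldr (tt k) w) - f (l.foldr (tt k) w) • (1 : B) = _
    congr 1
    rw [hc, hit_sub_smul, hit_one, hl f List.mem_cons_self, zero_smul, smul_zero, sub_zero]

/-- A nonzero subspace of the augmentation ideal which is a left coideal modulo the line of `1`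
contains a primitive element. -/
theorem exists_prim (W : Submodule k B) (hW : W ≠ ⊥)
    (hε : ∀ w ∈ W, Coalgebra.counit (R := k) w = 0)
    (hT : ∀ (f : B →ₗ[k] k), ∀ w ∈ W, tt k f w ∈ W)
    (hN : ∃ N : ℕ, ∀ l : List (B →ₗ[k] k), l.length = N → (∀ f ∈ l, f 1 = 0) →
      ∀ w ∈ W, l.foldr (hit k) w = 0) :
    ∃ w ∈ W, w ≠ 0 ∧ Prim k w := by
  classical
  have hmem : ∀ (l : List (B →ₗ[k] k)), ∀ w ∈ W, l.foldr (tt k) w ∈ W := by
    intro l w hw
    induction l with
    | nil => exact hw
    | cons f l ih => exact hT f _ ih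
  have hQ : ∃ n : ℕ, ∀ l : List (B →ₗ[k] k), l.length = n → (∀ f ∈ l, f 1 = 0) →
      ∀ w ∈ W, l.foldr (tt k) w = 0 := by
    obtain ⟨N, hN⟩ := hN
    refine ⟨N, fun l hl h w hw => ?_⟩
    obtain ⟨c, hc⟩ := foldr_tt w l h
    rw [hN l hl h w hw, zero_sub] at hc
    have h1 := hε _ (hmem l w hw)
    rw [hc, map_neg, map_smul, Bialgebra.counit_one, smul_eq_mul, mul_one, neg_eq_zero] at h1
    rw [hc, h1, zero_smul, neg_zero]
  obtain ⟨n, hn, hmin⟩ : ∃ n, (∀ l : List (B →ₗ[k] k), l.length = n → (∀ f ∈ l, f 1 = 0) →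
      ∀ w ∈ W, l.foldr (tt k) w = 0) ∧ ∀ m < n, ¬ ∀ l : List (B →ₗ[k] k), l.length = m →
      (∀ f ∈ l, f 1 = 0) → ∀ w ∈ W, l.foldr (tt k) w = 0 :=
    ⟨Nat.find hQ, Nat.find_spec hQ, fun m hm => Nat.find_min hQ hm⟩
  rcases Nat.eq_zero_or_pos n with h0 | h0
  · exfalso
    apply hW
    rw [Submodule.eq_bot_iff]
    intro w hw
    exact hn [] (by simp [h0]) (by simp) w hw
  · obtain ⟨m, rfl⟩ : ∃ m, n = m + 1 := ⟨n - 1, by omega⟩
    have h1 := hmin m (Nat.lt_succ_self m)
    push Not at h1
    obtain ⟨l, hl, hl1, w, hw, hy⟩ := h1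
    set y := l.foldr (tt k) w with hydef
    have hyW : y ∈ W := hmem l w hw
    have hyε := hε y hyW
    have hkill : ∀ f : B →ₗ[k] k, f 1 = 0 → tt k f y = 0 := by
      intro f hf
      refine hn (f :: l) (by simp [hl]) ?_ w hw
      intro g hg
      rcases List.mem_cons.1 hg with rfl | hg
      · exact hf
      · exact hl1 g hg
    refine ⟨y, hyW, hy, ?_⟩
    unfold Prim
    rw [← sub_eq_zero]
    refine sl_inj k fun f => ?_
    have h2 := hkill (f - f 1 • Coalgebra.counit (R := k)) (by
      rw [LinearMap.sub_apply, LinearMap.smul_apply, Bialgebra.counit_one, smul_eq_mul, mul_one,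
        sub_self])
    unfold tt hit at h2
    rw [sl_sub] at h2
    have h3 : sl k (Coalgebra.counit (R := k)) (Coalgebra.comul (R := k) y) = y :=
      hit_counit k y
    rw [h3, LinearMap.sub_apply, LinearMap.smul_apply, hyε, smul_zero, sub_zero] at h2
    rw [map_sub, map_add, sl_tmul, sl_tmul]
    rw [← h2]
    abel

theorem adj_eq_of (x : B) (b : B) : adj k b x = adR k x b := rfl

theorem counit_adj {v : B} (hv : Coalgebra.counit (R := k) v = 0) (b : B) :
    Coalgebra.counit (R := k) (adj k b v) = 0 := by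
  have h : ∀ t : B ⊗[k] B, Coalgebra.counit (R := k) (LinearMap.mul' k B
      (TensorProduct.map (LinearMap.mulRight k v) (HopfAlgebra.antipode k) t)) = 0 := by
    intro t
    induction t using TensorProduct.induction_on with
    | zero => simp
    | add s t hs ht => simp only [map_add, hs, ht, add_zero]
    | tmul a c =>
      rw [TensorProduct.map_tmul, LinearMap.mul'_apply, Bialgebra.counit_mul,
        LinearMap.mulRight_apply, Bialgebra.counit_mul, hv, mul_zero, zero_mul]
  exact h _

theorem counit_sl_kk (f : B →ₗ[k] k) (b : B) :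
    Coalgebra.counit (R := k) (sl k f (kk k B b)) = f 1 * Coalgebra.counit (R := k) b := by
  have h1 := congrArg (sl k f) (lT_counit (k := k) b)
  rw [sl_lT, Algebra.algebraMap_eq_smul_one, map_smul, Algebra.TensorProduct.one_def, sl_tmul]
    at h1
  have h2 := congrArg (Coalgebra.counit (R := k)) h1
  rw [LinearMap.comp_apply, Algebra.linearMap_apply, Bialgebra.counit_algebraMap, map_smul,
    map_smul, Bialgebra.counit_one, smul_eq_mul, smul_eq_mul, mul_one] at h2
  rw [h2, mul_comm]

/-- For a primitive element the action of functionals on `b ▷ v`. -/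
theorem tt_adj {v : B} (hv : Prim k v) (f : B →ₗ[k] k) (b : B) :
    tt k f (adj k b v) = adj k (sl k f (kk k B b)) v := by
  unfold tt hit
  rw [comul_adj v hv b, map_add, sl_tmul, sl_lT, adR_apply]
  abel

theorem adj_tensor_add (x y : B) (b : B) : adj k b (x + y) = adj k b x + adj k b y := by
  have h : ∀ t : B ⊗[k] B, LinearMap.mul' k B
      (TensorProduct.map (LinearMap.mulRight k (x + y)) (HopfAlgebra.antipode k) t) =
      LinearMap.mul' k B (TensorProduct.map (LinearMap.mulRight k x) (HopfAlgebra.antipode k) t) +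
      LinearMap.mul' k B (TensorProduct.map (LinearMap.mulRight k y) (HopfAlgebra.antipode k) t)
      := by
    intro t
    induction t using TensorProduct.induction_on with
    | zero => simp
    | add s t hs ht => simp only [map_add, hs, ht]; abel
    | tmul a c =>
      simp only [TensorProduct.map_tmul, LinearMap.mul'_apply, LinearMap.mulRight_apply, mul_add,
        add_mul]
  exact h _

theorem adj_tensor_smul (r : k) (x : B) (b : B) : adj k b (r • x) = r • adj k b x := by
  have h : ∀ t : B ⊗[k] B, LinearMap.mul' k B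
      (TensorProduct.map (LinearMap.mulRight k (r • x)) (HopfAlgebra.antipode k) t) =
      r • LinearMap.mul' k B
        (TensorProduct.map (LinearMap.mulRight k x) (HopfAlgebra.antipode k) t) := by
    intro t
    induction t using TensorProduct.induction_on with
    | zero => simp
    | add s t hs ht => simp only [map_add, hs, ht, smul_add]
    | tmul a c =>
      simp only [TensorProduct.map_tmul, LinearMap.mul'_apply, LinearMap.mulRight_apply,
        mul_smul_comm, smul_mul_assoc]
  exact h _

theorem adj_tensor_zero (b : B) : adj k b 0 = 0 := by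
  have h := adj_tensor_smul (k := k) 0 (0 : B) b
  rwa [zero_smul, zero_smul] at h

theorem adj_one (x : B) : adj k 1 x = x := by
  unfold adj
  rw [Bialgebra.comul_one, Algebra.TensorProduct.one_def, TensorProduct.map_tmul,
    LinearMap.mul'_apply, LinearMap.mulRight_apply, one_mul, HopfAlgebra.antipode_one, mul_one]

/-- invariant elements are central -/
theorem central_of_inv {v : B} (h : ∀ b : B, Coalgebra.counit (R := k) b = 0 → adj k b v = 0)
    (b : B) : b * v = v * b := by
  have h1 : ∀ b : B, adR k v b = Coalgebra.counit (R := k) b • v := by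
    intro b
    have h2 := h (b - Coalgebra.counit (R := k) b • (1 : B)) (by
      rw [map_sub, map_smul, Bialgebra.counit_one, smul_eq_mul, mul_one, sub_self])
    rw [adj_eq_of, map_sub, map_smul, sub_eq_zero, ← adj_eq_of v 1, adj_one] at h2
    exact h2
  have h3 : ∀ t : B ⊗[k] B, LinearMap.mul' k B (TensorProduct.map (adR k v) LinearMap.id t) =
      v * sl k (Coalgebra.counit (R := k)) t := by
    intro t
    induction t using TensorProduct.induction_on with
    | zero => simp
    | add s t hs ht => simp only [map_add, hs, ht, mul_add]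
    | tmul a c =>
      rw [TensorProduct.map_tmul, LinearMap.mul'_apply, h1, sl_tmul, LinearMap.id_apply,
        smul_mul_assoc, mul_smul_comm]
  have h4 := LinearMap.congr_fun (congrArg ofConv (adR_mul_id (k := k) v)) b
  have h5 : LinearMap.mul' k B (TensorProduct.map (adR k v) LinearMap.id
      (Coalgebra.comul (R := k) b)) = b * v := h4
  rw [h3] at h5
  have h6 : sl k (Coalgebra.counit (R := k)) (Coalgebra.comul (R := k) b) = b := hit_counit k b
  rw [h6] at h5
  exact h5.symm

/-- The main result: a nonzero central primitive element. -/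
theorem exists_central_prim (V : Submodule k B) (hV : Uni k V)
    (h0 : ∃ v ∈ V, v ≠ 0 ∧ Coalgebra.counit (R := k) v = 0) :
    ∃ v ∈ V, v ≠ 0 ∧ Prim k v ∧ ∀ b : B, b * v = v * b := by
  classical
  by_contra hcon
  push Not at hcon
  let U : ℕ → Submodule k B := fun n => Submodule.span k {x | ∃ l : List B, l.length = n ∧
    (∀ b ∈ l, Coalgebra.counit (R := k) b = 0) ∧ ∃ w ∈ V, x = l.foldr (adj k) w}
  have hU : ∀ n b x, Coalgebra.counit (R := k) b = 0 → x ∈ U n → adj k b x ∈ U (n + 1) := by
    intro n b x hb hx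
    refine Submodule.span_induction (p := fun x _ => adj k b x ∈ U (n + 1)) ?_ ?_ ?_ ?_ hx
    · rintro _ ⟨l, hl, hl1, w, hw, rfl⟩
      refine Submodule.subset_span ⟨b :: l, by simp [hl], ?_, w, hw, rfl⟩
      intro c hc
      rcases List.mem_cons.1 hc with rfl | hc
      · exact hb
      · exact hl1 c hc
    · rw [adj_tensor_zero]; exact zero_mem _
    · intro x y _ _ h1 h2
      rw [adj_tensor_add]; exact add_mem h1 h2
    · intro r x _ h1
      rw [adj_tensor_smul]; exact Submodule.smul_mem _ _ h1
  have key : ∀ n, ∃ v ∈ V, v ≠ 0 ∧ Prim k v ∧ v ∈ U n := by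
    intro n
    induction n with
    | zero =>
      let W : Submodule k B := V ⊓ LinearMap.ker (Coalgebra.counit (R := k) (A := B))
      obtain ⟨w, hw, hw0, hwp⟩ := exists_prim W
        (by
          obtain ⟨v, hv, hv0, hvε⟩ := h0
          intro h
          exact hv0 ((Submodule.eq_bot_iff _).1 h v ⟨hv, hvε⟩))
        (fun w hw => hw.2)
        (fun f w hw => ⟨sub_mem (hV.coid f w hw.1) (Submodule.smul_mem _ _ hV.one), by
          change Coalgebra.counit (R := k) (hit k f w - f w • (1 : B)) = 0
          rw [map_sub, counit_hit, map_smul, Bialgebra.counit_one, smul_eq_mul, mul_one,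
            sub_self]⟩)
        (by
          obtain ⟨N, hN⟩ := hV.conil
          exact ⟨N, fun l hl h w hw => hN l hl h w hw.1⟩)
      exact ⟨w, hw.1, hw0, hwp, Submodule.subset_span ⟨[], rfl, by simp, w, hw.1, rfl⟩⟩
    | succ n ih =>
      obtain ⟨v, hv, hv0, hvp, hvU⟩ := ih
      let W : Submodule k B := Submodule.map (adR k v)
        (LinearMap.ker (Coalgebra.counit (R := k) (A := B)))
      have hWV : ∀ w ∈ W, w ∈ V ∧ w ∈ U (n + 1) ∧ Coalgebra.counit (R := k) w = 0 := by
        rintro _ ⟨b, hb, rfl⟩
        exact ⟨hV.ad b v hv, hU n b v hb hvU, counit_adj hvp.counit b⟩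
      obtain ⟨w, hw, hw0, hwp⟩ := exists_prim W
        (by
          intro h
          apply hcon v hv hv0 hvp |>.elim
          intro b hb
          apply hb
          refine central_of_inv (k := k) (fun b hb => ?_) b
          exact (Submodule.eq_bot_iff _).1 h _ ⟨b, hb, rfl⟩)
        (fun w hw => (hWV w hw).2.2)
        (by
          rintro f _ ⟨b, hb, rfl⟩
          refine ⟨sl k f (kk k B b), ?_, ?_⟩
          · change Coalgebra.counit (R := k) (sl k f (kk k B b)) = 0
            rw [counit_sl_kk]
            have hb' : Coalgebra.counit (R := k) b = 0 := hb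
            rw [hb', mul_zero]
          · exact (tt_adj hvp f b).symm)
        (by
          obtain ⟨N, hN⟩ := hV.conil
          exact ⟨N, fun l hl h w hw => hN l hl h w (hWV w hw).1⟩)
      exact ⟨w, (hWV w hw).1, hw0, hwp, (hWV w hw).2.1⟩
  obtain ⟨N, hN⟩ := hV.adnil
  obtain ⟨v, hv, hv0, _, hvU⟩ := key N
  apply hv0
  refine Submodule.span_induction (p := fun x _ => x = 0) ?_ rfl ?_ ?_ hvU
  · rintro _ ⟨l, hl, hl1, w, hw, rfl⟩
    exact hN l hl hl1 w hw
  · intro x y _ _ h1 h2
    rw [h1, h2, add_zero]
  · intro r x _ h1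
    rw [h1, smul_zero]

end

end Pool.Agent.Helper90.UN
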