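import Mathlib
import Pool.Agent.Helper90.FC.Defs
import Pool.Agent.Helper90.UN.Prim

/-!
# The Hopf subalgebra generated by a primitive element
-/

set_option linter.unusedSectionVars false
set_option autoImplicit false

open scoped TensorProduct

namespace Pool.Agent.Helper90.UN

universe u

section

variable {k : Type u} [Field k]

section Sub

variable {A : Type u} [Ring A] [HopfAlgebra k A] (S : Subalgebra k A)

private noncomputable abbrev v2 : S ⊗[k] S →ₐ[k] A ⊗[k] A :=
  Algebra.TensorProduct.map S.val S.val

private noncomputable abbrev v3 : S ⊗[k] (S ⊗[k] S) →ₐ[k] A ⊗[k] (A ⊗[k] A) :=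
  Algebra.TensorProduct.map S.val (v2 S)

private theorem v2_inj : Function.Injective (v2 S) :=
  TensorProduct.map_injective_of_flat_flat S.val.toLinearMap S.val.toLinearMap
    Subtype.val_injective Subtype.val_injective

private theorem v3_inj : Function.Injective (v3 S) :=
  TensorProduct.map_injective_of_flat_flat S.val.toLinearMap (v2 S).toLinearMap
    Subtype.val_injective (v2_inj S)

variable (hΔ : ∀ a ∈ S, Coalgebra.comul (R := k) a ∈
      LinearMap.range (TensorProduct.map S.val.toLinearMap S.val.toLinearMap))

include hΔ in
private theorem exists_cm : ∃ δ : S →ₐ[k] S ⊗[k] S, ∀ a : S,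
    v2 S (δ a) = Coalgebra.comul (R := k) (a : A) := by
  have h : ∀ a : S, ((Bialgebra.comulAlgHom k A).comp S.val) a ∈ (v2 S).range := by
    intro a
    obtain ⟨t, ht⟩ := hΔ a a.2
    exact ⟨t, ht⟩
  refine ⟨(AlgEquiv.ofInjective (v2 S) (v2_inj S)).symm.toAlgHom.comp
    (((Bialgebra.comulAlgHom k A).comp S.val).codRestrict (v2 S).range h), fun a => ?_⟩
  have h1 := (AlgEquiv.ofInjective (v2 S) (v2_inj S)).apply_symm_apply
    ((((Bialgebra.comulAlgHom k A).comp S.val).codRestrict (v2 S).range h) a)
  have h2 := congrArg Subtype.val h1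
  exact h2

private theorem v3_assoc (s : S ⊗[k] S) (b : S) :
    v3 S (TensorProduct.assoc k S S S (s ⊗ₜ b)) =
      TensorProduct.assoc k A A A (v2 S s ⊗ₜ (b : A)) := by
  induction s using TensorProduct.induction_on with
  | zero => simp
  | add s t hs ht => simp only [TensorProduct.add_tmul, map_add, hs, ht]
  | tmul a c => simp

end Sub

theorem exists_subHopf_ring {A : Type u} [Ring A] [HopfAlgebra k A] (S : Subalgebra k A)
    (hΔ : ∀ a ∈ S, Coalgebra.comul (R := k) a ∈
      LinearMap.range (TensorProduct.map S.val.toLinearMap S.val.toLinearMap))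
    (hS : ∀ a ∈ S, HopfAlgebra.antipode k a ∈ S) :
    ∃ (A' : Type u) (_ : Ring A') (_ : HopfAlgebra k A') (j : A' →ₐc[k] A),
      Function.Injective j ∧ Set.range j = (S : Set A) := by
  obtain ⟨δ, hδ⟩ := exists_cm S hΔ
  have h1 : ∀ t : S ⊗[k] S, v3 S (TensorProduct.assoc k S S S
      (TensorProduct.map δ.toLinearMap LinearMap.id t)) =
      TensorProduct.assoc k A A A (TensorProduct.map (Coalgebra.comul (R := k)) LinearMap.id
        (v2 S t)) := by
    intro t
    induction t using TensorProduct.induction_on with
    | zero => simp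
    | add s t hs ht => simp only [map_add, hs, ht]
    | tmul a b =>
      rw [TensorProduct.map_tmul]
      refine (v3_assoc S (δ a) b).trans ?_
      rw [hδ]
      rfl
  have h2 : ∀ t : S ⊗[k] S, v3 S (TensorProduct.map LinearMap.id δ.toLinearMap t) =
      TensorProduct.map LinearMap.id (Coalgebra.comul (R := k)) (v2 S t) := by
    intro t
    induction t using TensorProduct.induction_on with
    | zero => simp
    | add s t hs ht => simp only [map_add, hs, ht]
    | tmul a b =>
      rw [TensorProduct.map_tmul]
      change (a : A) ⊗ₜ[k] (v2 S (δ b)) = _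
      rw [hδ]
      rfl
  let ε : S →ₐ[k] k := (Bialgebra.counitAlgHom k A).comp S.val
  have e1 : ∀ t : S ⊗[k] S, ((TensorProduct.lid k S
      (TensorProduct.map ε.toLinearMap LinearMap.id t) : S) : A) =
      TensorProduct.lid k A (TensorProduct.map (Coalgebra.counit (R := k)) LinearMap.id
        (v2 S t)) := by
    intro t
    induction t using TensorProduct.induction_on with
    | zero => simp
    | add s t hs ht => simp only [map_add, Subalgebra.coe_add, hs, ht]
    | tmul a b => rfl
  have e2 : ∀ t : S ⊗[k] S, ((TensorProduct.rid k S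
      (TensorProduct.map LinearMap.id ε.toLinearMap t) : S) : A) =
      TensorProduct.rid k A (TensorProduct.map LinearMap.id (Coalgebra.counit (R := k))
        (v2 S t)) := by
    intro t
    induction t using TensorProduct.induction_on with
    | zero => simp
    | add s t hs ht => simp only [map_add, Subalgebra.coe_add, hs, ht]
    | tmul a b => rfl
  let bi : Bialgebra k S := Bialgebra.ofAlgHom δ ε
    (by
      refine AlgHom.ext fun a => v3_inj S ?_
      have c := Coalgebra.coassoc_apply (R := k) (a : A)
      refine (h1 (δ a)).trans (Eq.trans ?_ (h2 (δ a)).symm)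
      rw [hδ]
      exact c)
    (by
      refine AlgHom.ext fun a => (TensorProduct.lid k S).injective (Subtype.val_injective ?_)
      have c := Coalgebra.rTensor_counit_comul (R := k) (a : A)
      refine (e1 (δ a)).trans ?_
      rw [hδ]
      refine (congrArg (TensorProduct.lid k A) c).trans ?_
      rw [TensorProduct.lid_tmul, one_smul]
      change _ = ((TensorProduct.lid k S ((TensorProduct.lid k S).symm a) : S) : A)
      rw [LinearEquiv.apply_symm_apply])
    (by
      refine AlgHom.ext fun a => (TensorProduct.rid k S).injective (Subtype.val_injective ?_)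
      have c := Coalgebra.lTensor_counit_comul (R := k) (a : A)
      refine (e2 (δ a)).trans ?_
      rw [hδ]
      refine (congrArg (TensorProduct.rid k A) c).trans ?_
      rw [TensorProduct.rid_tmul, one_smul]
      change _ = ((TensorProduct.rid k S ((TensorProduct.rid k S).symm a) : S) : A)
      rw [LinearEquiv.apply_symm_apply])
  let ant : S →ₗ[k] S :=
    (HopfAlgebra.antipode k (A := A)).restrict (p := Subalgebra.toSubmodule S)
      (q := Subalgebra.toSubmodule S) hS
  have m1 : ∀ t : S ⊗[k] S, ((LinearMap.mul' k S (TensorProduct.map ant LinearMap.id t) : S) : A) =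
      LinearMap.mul' k A (TensorProduct.map (HopfAlgebra.antipode k) LinearMap.id (v2 S t)) := by
    intro t
    induction t using TensorProduct.induction_on with
    | zero => simp
    | add s t hs ht => simp only [map_add, Subalgebra.coe_add, hs, ht]
    | tmul a b => rfl
  have m2 : ∀ t : S ⊗[k] S, ((LinearMap.mul' k S (TensorProduct.map LinearMap.id ant t) : S) : A) =
      LinearMap.mul' k A (TensorProduct.map LinearMap.id (HopfAlgebra.antipode k) (v2 S t)) := by
    intro t
    induction t using TensorProduct.induction_on with
    | zero => simp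
    | add s t hs ht => simp only [map_add, Subalgebra.coe_add, hs, ht]
    | tmul a b => rfl
  let ho : HopfAlgebra k S :=
    { bi with
      antipode := ant
      mul_antipode_rTensor_comul := by
        refine LinearMap.ext fun a => Subtype.val_injective ?_
        refine (m1 (δ a)).trans ?_
        rw [hδ]
        exact HopfAlgebra.mul_antipode_rTensor_comul_apply (R := k) (a : A)
      mul_antipode_lTensor_comul := by
        refine LinearMap.ext fun a => Subtype.val_injective ?_
        refine (m2 (δ a)).trans ?_
        rw [hδ]
        exact HopfAlgebra.mul_antipode_lTensor_comul_apply (R := k) (a : A) }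
  refine ⟨S, inferInstance, ho, BialgHom.ofAlgHom S.val rfl (AlgHom.ext fun a => hδ a), ?_, ?_⟩
  · exact Subtype.val_injective
  · exact Subtype.range_val


/-- The Hopf subalgebra generated by a primitive element. -/
theorem exists_gen {B : Type u} [Ring B] [HopfAlgebra k B] {v : B} (hv : Prim k v) :
    ∃ (A' : Type u) (_ : Ring A') (_ : HopfAlgebra k A') (j : A' →ₐc[k] B),
      Function.Injective j ∧ Set.range j = (Algebra.adjoin k {v} : Set B) := by
  let S : Subalgebra k B := Algebra.adjoin k {v}
  let v' : S := ⟨v, Algebra.self_mem_adjoin_singleton k v⟩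
  refine exists_subHopf_ring S ?_ ?_
  · intro a ha
    let R : Subalgebra k (B ⊗[k] B) := (Algebra.TensorProduct.map S.val S.val).range
    have hR : ∀ t : B ⊗[k] B, t ∈ R → t ∈ LinearMap.range (TensorProduct.map
        S.val.toLinearMap S.val.toLinearMap) := by
      rintro _ ⟨t, rfl⟩
      exact ⟨t, rfl⟩
    refine hR _ ?_
    have hle : S ≤ R.comap (Bialgebra.comulAlgHom k B) := by
      refine Algebra.adjoin_le ?_
      intro x hx
      rw [Set.mem_singleton_iff] at hx
      rw [hx]
      change Coalgebra.comul (R := k) v ∈ R
      rw [hv]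
      have e1 : (Algebra.TensorProduct.map S.val S.val) (v' ⊗ₜ[k] (1 : S)) =
          v ⊗ₜ[k] (1 : B) := rfl
      have e2 : (Algebra.TensorProduct.map S.val S.val) ((1 : S) ⊗ₜ[k] v') =
          (1 : B) ⊗ₜ[k] v := rfl
      exact add_mem ⟨_, e1⟩ ⟨_, e2⟩
    exact hle ha
  · intro a ha
    refine Algebra.adjoin_induction (p := fun x _ =>
      HopfAlgebra.antipode k x ∈ S) ?_ ?_ ?_ ?_ ha
    · intro x hx
      rw [Set.mem_singleton_iff] at hx
      rw [hx]
      have h1 := HopfAlgebra.mul_antipode_rTensor_comul_apply (R := k) v
      rw [hv, map_add, map_add, LinearMap.rTensor_tmul, LinearMap.rTensor_tmul,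
        LinearMap.mul'_apply, LinearMap.mul'_apply, mul_one, HopfAlgebra.antipode_one, one_mul,
        hv.counit, map_zero] at h1
      rw [eq_neg_of_add_eq_zero_left h1]
      exact neg_mem v'.2
    · intro r
      rw [Algebra.algebraMap_eq_smul_one, map_smul, HopfAlgebra.antipode_one]
      exact Subalgebra.smul_mem _ (one_mem _) r
    · intro x y _ _ h1 h2
      rw [map_add]
      exact add_mem h1 h2
    · intro x y _ _ h1 h2
      rw [HopfAlgebra.antipode_mul_antidistrib]
      exact mul_mem h2 h1

end

end Pool.Agent.Helper90.UN
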