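import Mathlib
import Pool.Agent.Helper90.FC.Iter
import Pool.Agent.Helper90.FC.HopfQ
import Pool.Agent.Helper90.UN.Sub

/-!
# A homomorphism of Hopf algebras with a unipotent kernel is a sequence of central extensions
-/

set_option linter.unusedSectionVars false
set_option autoImplicit false

open scoped TensorProduct
open Pool.Agent.Helper90.FC

namespace Pool.Agent.Helper90.UN

universe u

section

variable {k : Type u} [Field k]

theorem map_antipode {A B : Type u} [Ring A] [Ring B] [HopfAlgebra k A] [HopfAlgebra k B]
    (f : A →ₐc[k] B) (a : A) :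
    f (HopfAlgebra.antipode k a) = HopfAlgebra.antipode k (f a) := by
  have h1 : WithConv.toConv (HopfAlgebra.antipode k ∘ₗ f.toCoalgHom.toLinearMap) *
      WithConv.toConv f.toCoalgHom.toLinearMap = (1 : WithConv (A →ₗ[k] B)) := by
    apply WithConv.ofConv_injective
    have := LinearMap.convMul_comp_coalgHom_distrib (WithConv.toConv (HopfAlgebra.antipode k))
      (WithConv.toConv (LinearMap.id : B →ₗ[k] B)) f.toCoalgHom
    rw [LinearMap.antipode_mul_id, LinearMap.convOne_comp_coalgHom] at this
    exact this.symm
  have h2 : WithConv.toConv f.toCoalgHom.toLinearMap *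
      WithConv.toConv (f.toCoalgHom.toLinearMap ∘ₗ HopfAlgebra.antipode k) =
        (1 : WithConv (A →ₗ[k] B)) := by
    apply WithConv.ofConv_injective
    have := LinearMap.algHom_comp_convMul_distrib (AlgHomClass.toAlgHom f)
      (WithConv.toConv (LinearMap.id : A →ₗ[k] A)) (WithConv.toConv (HopfAlgebra.antipode k))
    rw [LinearMap.id_mul_antipode, LinearMap.algHom_comp_convOne] at this
    exact this.symm
  have h3 := left_inv_eq_right_inv h1 h2
  have h4 := congrArg WithConv.ofConv h3
  exact (LinearMap.congr_fun h4 a).symm

theorem map_comul {A B : Type u} [Ring A] [Ring B] [HopfAlgebra k A] [HopfAlgebra k B]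
    (f : A →ₐc[k] B) (a : A) : Coalgebra.comul (R := k) (f a) =
      TensorProduct.map f.toCoalgHom.toLinearMap f.toCoalgHom.toLinearMap
        (Coalgebra.comul (R := k) a) :=
  (LinearMap.congr_fun f.toCoalgHom.map_comp_comul a).symm

theorem map_counit {A B : Type u} [Ring A] [Ring B] [HopfAlgebra k A] [HopfAlgebra k B]
    (f : A →ₐc[k] B) (a : A) : Coalgebra.counit (R := k) (f a) =
      Coalgebra.counit (R := k) a :=
  LinearMap.congr_fun f.toCoalgHom.counit_comp a

section

variable {A B : Type u} [Ring A] [Ring B] [HopfAlgebra k A] [HopfAlgebra k B] (f : A →ₐc[k] B)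

theorem map_adj (a x : A) : f (adj k a x) = adj k (f a) (f x) := by
  have h : ∀ t : A ⊗[k] A, f (LinearMap.mul' k A (TensorProduct.map (LinearMap.mulRight k x)
      (HopfAlgebra.antipode k) t)) = LinearMap.mul' k B (TensorProduct.map
        (LinearMap.mulRight k (f x)) (HopfAlgebra.antipode k)
        (TensorProduct.map f.toCoalgHom.toLinearMap f.toCoalgHom.toLinearMap t)) := by
    intro t
    induction t using TensorProduct.induction_on with
    | zero => simp
    | add s t hs ht => simp only [map_add, hs, ht]
    | tmul a c =>
      rw [TensorProduct.map_tmul, TensorProduct.map_tmul, TensorProduct.map_tmul,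
        LinearMap.mul'_apply, LinearMap.mul'_apply, map_mul]
      change f (a * x) * f (HopfAlgebra.antipode k c) = (f a * f x) *
        HopfAlgebra.antipode k (f c)
      rw [map_mul, map_antipode]
  unfold adj
  rw [h, map_comul]

theorem map_hit (g : B →ₗ[k] k) (x : A) :
    f (hit k (g ∘ₗ f.toCoalgHom.toLinearMap) x) = hit k g (f x) := by
  have h : ∀ t : A ⊗[k] A, f (sl k (g ∘ₗ f.toCoalgHom.toLinearMap) t) =
      sl k g (TensorProduct.map f.toCoalgHom.toLinearMap f.toCoalgHom.toLinearMap t) := by
    intro t
    induction t using TensorProduct.induction_on with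
    | zero => simp
    | add s t hs ht => simp only [map_add, hs, ht]
    | tmul a c =>
      rw [TensorProduct.map_tmul, sl_tmul, sl_tmul, map_smul]
      rfl
  unfold hit
  rw [h, map_comul]

theorem foldr_map_adj (l : List A) (x : A) :
    (l.map f).foldr (adj k) (f x) = f (l.foldr (adj k) x) := by
  induction l with
  | nil => rfl
  | cons a l ih => rw [List.map_cons, List.foldr_cons, List.foldr_cons, ih, map_adj]

theorem foldr_map_hit (l : List (B →ₗ[k] k)) (x : A) :
    l.foldr (hit k) (f x) =
      f ((l.map fun g => g ∘ₗ f.toCoalgHom.toLinearMap).foldr (hit k) x) := by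
  induction l with
  | nil => rfl
  | cons a l ih => rw [List.map_cons, List.foldr_cons, List.foldr_cons, ih, map_hit]

end

/-- unipotent Yetter-Drinfeld submodules pass to quotients -/
theorem Uni.map {B B' : Type u} [Ring B] [Ring B'] [HopfAlgebra k B] [HopfAlgebra k B']
    (π : B →ₐc[k] B') (hπ : Function.Surjective π) {V : Submodule k B} (hV : Uni k V) :
    Uni k (V.map π.toCoalgHom.toLinearMap) where
  one := ⟨1, hV.one, map_one π⟩
  coid := by
    rintro f _ ⟨v, hv, rfl⟩
    exact ⟨_, hV.coid (f ∘ₗ π.toCoalgHom.toLinearMap) v hv, map_hit π f v⟩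
  ad := by
    rintro b _ ⟨v, hv, rfl⟩
    obtain ⟨b, rfl⟩ := hπ b
    exact ⟨_, hV.ad b v hv, map_adj π b v⟩
  adnil := by
    obtain ⟨N, hN⟩ := hV.adnil
    refine ⟨N, ?_⟩
    rintro l hl h _ ⟨v, hv, rfl⟩
    obtain ⟨m, rfl⟩ : ∃ m : List B, m.map π = l := List.map_surjective_iff.2 hπ l
    have h1 := hN m (by simpa using hl) (fun b hb => by
      rw [← map_counit π b]
      exact h _ (List.mem_map_of_mem hb)) v hv
    change (m.map π).foldr (adj k) (π v) = 0
    rw [foldr_map_adj, h1, map_zero]
  conil := by
    obtain ⟨N, hN⟩ := hV.conil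
    refine ⟨N, ?_⟩
    rintro l hl h _ ⟨v, hv, rfl⟩
    have h1 := hN (l.map fun g => g ∘ₗ π.toCoalgHom.toLinearMap) (by simpa using hl) (by
      intro f hf
      obtain ⟨g, hg, rfl⟩ := List.mem_map.1 hf
      change g (π 1) = 0
      rw [map_one]
      exact h g hg) v hv
    change l.foldr (hit k) (π v) = 0
    rw [foldr_map_hit, h1, map_zero]

/-- A surjective homomorphism of Hopf algebras whose kernel is generated by the augmentation ideal
of a unipotent subspace is a sequence of central extensions. -/
theorem iter_of_uni (n : ℕ) : ∀ {B C : Type u} [Ring B] [Ring C] [HopfAlgebra k B]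
    [HopfAlgebra k C] [Module.Finite k B] (π : B →ₐc[k] C), Function.Surjective π →
    ∀ V : Submodule k B, Uni k V →
    (∀ b : B, π b = 0 ↔ b ∈ Ideal.span {v : B | v ∈ V ∧ Coalgebra.counit (R := k) v = 0}) →
    Module.finrank k B = n → IterCentral k C B := by
  induction n using Nat.strong_induction_on with
  | _ n ih =>
    intro B C _ _ _ _ _ π hπ V hV hker hn
    by_cases h0 : ∃ v ∈ V, v ≠ 0 ∧ Coalgebra.counit (R := k) v = 0
    · obtain ⟨v, hv, hv0, hvp, hvc⟩ := exists_central_prim V hV h0
      obtain ⟨A', _, _, j, hj, hr⟩ := exists_gen hvp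
      have hmem : ∀ a, j a ∈ Algebra.adjoin k {v} := fun a => by
        have : j a ∈ (Algebra.adjoin k {v} : Set B) := hr ▸ Set.mem_range_self a
        exact this
      have hle : Algebra.adjoin k {v} ≤ Subalgebra.center k B := by
        refine Algebra.adjoin_le ?_
        intro x hx
        rw [Set.mem_singleton_iff] at hx
        rw [hx]
        exact Subalgebra.mem_center_iff.2 fun b => hvc b
      obtain ⟨B', _, _, π', hex⟩ := exists_quotHopf j hj fun a b =>
        (Subalgebra.mem_center_iff.1 (hle (hmem a)) b).symm
      have hvπ : π v = 0 := (hker v).2 (Ideal.subset_span ⟨hv, hvp.counit⟩)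
      have hle2 : Algebra.adjoin k {v} ≤ AlgHom.equalizer (AlgHomClass.toAlgHom π : B →ₐ[k] C)
          ((Algebra.ofId k C).comp (Bialgebra.counitAlgHom k B)) := by
        refine Algebra.adjoin_le ?_
        intro x hx
        rw [Set.mem_singleton_iff] at hx
        rw [hx]
        change π v = algebraMap k C (Coalgebra.counit (R := k) v)
        rw [hvπ, hvp.counit, map_zero]
      have hπj : ∀ a : A', Coalgebra.counit (R := k) a = 0 → π (j a) = 0 := by
        intro a ha
        have h1 : π (j a) = algebraMap k C (Coalgebra.counit (R := k) (j a)) :=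
          hle2 (hmem a)
        rw [h1, map_counit j a, ha, map_zero]
      obtain ⟨g, hg⟩ := exists_desc j π' hex π hπj
      have hv' : π' v = 0 := by
        obtain ⟨a, ha⟩ : v ∈ Set.range j := by
          rw [hr]
          exact Algebra.self_mem_adjoin_singleton k v
        rw [hex.ker]
        refine Ideal.subset_span ⟨a, ?_, ha⟩
        change Coalgebra.counit (R := k) a = 0
        rw [← map_counit j a, ha, hvp.counit]
      have hfin : Module.Finite k B' := finite_of_surj' π' hex.surj
      have hlt : Module.finrank k B' < n := by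
        have h1 : Module.finrank k B' ≤ Module.finrank k B :=
          LinearMap.finrank_le_finrank_of_surjective (f := π'.toCoalgHom.toLinearMap) hex.surj
        rcases h1.lt_or_eq with h | h
        · rwa [hn] at h
        · exfalso
          have h2 := (LinearMap.injective_iff_surjective_of_finrank_eq_finrank h.symm
            (f := π'.toCoalgHom.toLinearMap)).2 hex.surj
          apply hv0
          apply h2
          change π' v = π' 0
          rw [hv', map_zero]
      have hgs : Function.Surjective g := by
        intro c
        obtain ⟨b, rfl⟩ := hπ c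
        exact ⟨π' b, hg b⟩
      refine IterCentral.step j π' hex (ih _ hlt g hgs (V.map π'.toCoalgHom.toLinearMap)
        (hV.map π' hex.surj) ?_ rfl)
      intro y
      constructor
      · intro hy
        obtain ⟨b, rfl⟩ := hex.surj y
        rw [hg, hker] at hy
        refine Submodule.span_induction (p := fun x _ => π' x ∈ _) ?_ ?_ ?_ ?_ hy
        · rintro x ⟨hx, hx0⟩
          refine Ideal.subset_span ⟨⟨x, hx, rfl⟩, ?_⟩
          rw [map_counit π' x, hx0]
        · rw [map_zero]; exact zero_mem _
        · intro x z _ _ h1 h2
          rw [map_add]; exact add_mem h1 h2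
        · intro r x _ h1
          rw [smul_eq_mul, map_mul]
          exact Ideal.mul_mem_left _ _ h1
      · intro hy
        refine Submodule.span_induction (p := fun x _ => g x = 0) ?_ ?_ ?_ ?_ hy
        · rintro _ ⟨⟨x, hx, rfl⟩, hx0⟩
          change g (π' x) = 0
          rw [hg, hker]
          refine Ideal.subset_span ⟨hx, ?_⟩
          rw [← map_counit π' x]
          exact hx0
        · exact map_zero g
        · intro x z _ _ h1 h2
          rw [map_add, h1, h2, add_zero]
        · intro r x _ h1
          rw [smul_eq_mul, map_mul, h1, mul_zero]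
    · push Not at h0
      have hnt : Nontrivial B := by
        refine ⟨⟨0, 1, fun h => ?_⟩⟩
        have h2 : Coalgebra.counit (R := k) (0 : B) = Coalgebra.counit (R := k) (1 : B) := by
          rw [h]
        rw [map_zero, Bialgebra.counit_one] at h2
        exact zero_ne_one h2
      have hspan : Ideal.span {v : B | v ∈ V ∧ Coalgebra.counit (R := k) v = 0} = ⊥ := by
        rw [Ideal.span_eq_bot]
        rintro x ⟨hx, hx0⟩
        by_contra hne
        exact h0 x hx hne hx0
      refine IterCentral.step (A := k) (Bialgebra.unitBialgHom k B) π ⟨?_, hπ, ?_, ?_⟩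
        IterCentral.refl
      · exact (algebraMap k B).injective
      · intro a b
        exact Algebra.commutes a b
      · intro b
        rw [hker, hspan]
        have : (Bialgebra.unitBialgHom k B) '' {a : k | Coalgebra.counit (R := k) a = 0} =
            {0} := by
          ext x
          constructor
          · rintro ⟨a, ha, rfl⟩
            have ha' : a = 0 := ha
            rw [ha', map_zero]
            rfl
          · intro hx
            rw [Set.mem_singleton_iff] at hx
            exact ⟨0, map_zero _, by rw [map_zero, hx]⟩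
        rw [this, Ideal.span_singleton_eq_bot.2 rfl]

end

end Pool.Agent.Helper90.UN
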