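import Mathlib
import Pool.Agent.Helper90.UN.Main

/-!
# Local Hopf algebras and Hopf algebras with a local dual
-/

set_option linter.unusedSectionVars false
set_option autoImplicit false

open scoped TensorProduct
open Pool.Agent.Helper90.FC WithConv

namespace Pool.Agent.Helper90.UN

universe u

section

variable (k : Type u) [Field k]

/-- In a finite-dimensional local algebra the products of many nonunits vanish. -/
theorem exists_prod_zero {R : Type u} [Ring R] [Algebra k R] [Module.Finite k R]
    (hR : IsLocalRing R) (P : R → Prop) (hP : ∀ x, P x → ∀ y, P (y * x))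
    (hu : ∀ x, P x → ¬ IsUnit x) :
    ∃ N : ℕ, ∀ l : List R, l.length = N → (∀ x ∈ l, P x) → l.prod = 0 := by
  have hA : IsArtinianRing R := IsArtinianRing.of_finite k R
  obtain ⟨N, hN⟩ := IsArtinianRing.isNilpotent_jacobson_bot (R := R)
  have hJ : ∀ x, P x → x ∈ Ideal.jacobson (⊥ : Ideal R) := by
    intro x hx
    rw [Ideal.mem_jacobson_iff]
    intro y
    have h1 : IsUnit (1 + y * x) := by
      have h2 : IsUnit ((1 + y * x) + -(y * x)) := by
        rw [add_neg_cancel_right]
        exact isUnit_one
      rcases IsLocalRing.isUnit_or_isUnit_of_isUnit_add h2 with h | h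
      · exact h
      · exact absurd ((IsUnit.neg_iff _).1 h) (hu _ (hP x hx y))
    obtain ⟨w, hw⟩ := h1
    refine ⟨(w⁻¹ : Rˣ), ?_⟩
    have h3 : (w⁻¹ : Rˣ) * (1 + y * x) = 1 := by
      rw [← hw]
      exact w.inv_mul
    rw [mul_add, mul_one, ← mul_assoc] at h3
    rw [Ideal.mem_bot, sub_eq_zero, ← h3, add_comm]
  have hl : ∀ l : List R, (∀ x ∈ l, P x) → l.prod ∈ Ideal.jacobson (⊥ : Ideal R) ^ l.length := by
    intro l
    induction l using List.reverseRecOn with
    | nil =>
      intro _
      rw [List.length_nil, Submodule.pow_zero, Ideal.one_eq_top]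
      trivial
    | append_singleton l a ih =>
      intro h
      rw [List.prod_append, List.prod_singleton, List.length_append, List.length_singleton,
        Submodule.pow_succ]
      exact Ideal.mul_mem_mul (ih fun b hb => h b (by simp [hb])) (hJ a (h a (by simp)))
  refine ⟨N, fun l h1 h2 => ?_⟩
  have h3 := hl l h2
  rw [h1, hN] at h3
  exact h3

variable {k}

/-- In a finite-dimensional local Hopf algebra the augmentation ideal is nilpotent. -/
theorem exists_aug {B : Type u} [Ring B] [HopfAlgebra k B] [Module.Finite k B]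
    (hB : IsLocalRing B) : ∃ N : ℕ, ∀ l : List B, l.length = N →
      (∀ b ∈ l, Coalgebra.counit (R := k) b = 0) → l.prod = 0 := by
  refine exists_prod_zero k hB (fun b => Coalgebra.counit (R := k) b = 0) ?_ ?_
  · intro x hx y
    rw [Bialgebra.counit_mul, hx, mul_zero]
  · intro x hx hu
    obtain ⟨w, rfl⟩ := hu
    have h1 : Coalgebra.counit (R := k) ((w : B) * (w⁻¹ : Bˣ)) = 1 := by
      rw [w.mul_inv, Bialgebra.counit_one]
    rw [Bialgebra.counit_mul, hx, zero_mul] at h1
    exact zero_ne_one h1

/-- If the dual algebra is local its augmentation ideal is nilpotent. -/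
theorem exists_coaug {A : Type u} [Ring A] [HopfAlgebra k A] [Module.Finite k A]
    (hA : IsLocalRing (WithConv (A →ₗ[k] k))) : ∃ N : ℕ, ∀ l : List (WithConv (A →ₗ[k] k)),
      l.length = N → (∀ f ∈ l, f 1 = 0) → l.prod = 0 := by
  have hone : ∀ f g : WithConv (A →ₗ[k] k), (f * g) 1 = f 1 * g 1 := by
    intro f g
    change LinearMap.mul' k k (TensorProduct.map f.ofConv g.ofConv
      (Coalgebra.comul (R := k) (1 : A))) = _
    rw [Bialgebra.comul_one, Algebra.TensorProduct.one_def, TensorProduct.map_tmul,
      LinearMap.mul'_apply]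
  have hfin : Module.Finite k (WithConv (A →ₗ[k] k)) :=
    Module.Finite.equiv (WithConv.linearEquiv k (A →ₗ[k] k)).symm
  refine exists_prod_zero k hA (fun f => f 1 = 0) ?_ ?_
  · intro f hf g
    rw [hone, hf, mul_zero]
  · intro f hf hu
    obtain ⟨w, rfl⟩ := hu
    have h1 : ((w : WithConv (A →ₗ[k] k)) * (w⁻¹ : (WithConv (A →ₗ[k] k))ˣ)) 1 =
        (1 : WithConv (A →ₗ[k] k)) 1 := by
      rw [w.mul_inv]
    rw [hone, hf, zero_mul, LinearMap.convOne_apply, Bialgebra.counit_one, map_one] at h1
    exact zero_ne_one h1

theorem hit_hit {A : Type u} [Ring A] [HopfAlgebra k A] (f g : WithConv (A →ₗ[k] k)) (a : A) :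
    hit k f.ofConv (hit k g.ofConv a) = hit k (g * f).ofConv a := by
  let Φ : A ⊗[k] (A ⊗[k] A) →ₗ[k] A :=
    (TensorProduct.lid k A).toLinearMap ∘ₗ TensorProduct.map g.ofConv (sl k f.ofConv)
  have h1 : ∀ t : A ⊗[k] A, hit k f.ofConv (sl k g.ofConv t) =
      Φ (LinearMap.lTensor A (Coalgebra.comul (R := k)) t) := by
    intro t
    unfold hit
    induction t using TensorProduct.induction_on with
    | zero => simp
    | add s t hs ht => simp only [map_add, hs, ht]
    | tmul a b =>
      rw [sl_tmul, map_smul, map_smul]
      rfl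
  have h2 : ∀ t : A ⊗[k] A, sl k (g * f).ofConv t = Φ (TensorProduct.assoc k A A A
      (LinearMap.rTensor A (Coalgebra.comul (R := k)) t)) := by
    intro t
    induction t using TensorProduct.induction_on with
    | zero => simp
    | add s t hs ht => simp only [map_add, hs, ht]
    | tmul a b =>
      rw [sl_tmul, LinearMap.rTensor_tmul]
      have h3 : ∀ s : A ⊗[k] A, (LinearMap.mul' k k (TensorProduct.map g.ofConv f.ofConv s)) • b =
          Φ (TensorProduct.assoc k A A A (s ⊗ₜ b)) := by
        intro s
        induction s using TensorProduct.induction_on with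
        | zero => simp
        | add s t hs ht => simp only [map_add, add_smul, TensorProduct.add_tmul, hs, ht]
        | tmul x y =>
          rw [TensorProduct.map_tmul, LinearMap.mul'_apply, TensorProduct.assoc_tmul]
          change (g.ofConv x * f.ofConv y) • b = g.ofConv x • (f.ofConv y • b)
          rw [mul_smul]
      exact h3 _
  have h3 := Coalgebra.coassoc_apply (R := k) a
  change hit k f.ofConv (sl k g.ofConv (Coalgebra.comul (R := k) a)) =
    sl k (g * f).ofConv (Coalgebra.comul (R := k) a)
  rw [h1, h2, h3]

theorem foldr_hit {A : Type u} [Ring A] [HopfAlgebra k A] (a : A) :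
    ∀ l : List (A →ₗ[k] k), l.foldr (hit k) a =
      hit k ((l.reverse.map toConv).prod : WithConv (A →ₗ[k] k)).ofConv a := by
  intro l
  induction l with
  | nil =>
    have h : ((([] : List (A →ₗ[k] k)).reverse.map toConv).prod :
        WithConv (A →ₗ[k] k)).ofConv = Coalgebra.counit (R := k) := by
      ext x
      rfl
    rw [h, hit_counit]
    rfl
  | cons f l ih =>
    rw [List.foldr_cons, ih, List.reverse_cons, List.map_append, List.prod_append,
      List.map_singleton, List.prod_singleton, ← hit_hit]

/-- The nilpotence condition on a Hopf algebra with a local dual. -/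
theorem exists_conil {A : Type u} [Ring A] [HopfAlgebra k A] [Module.Finite k A]
    (hA : IsLocalRing (WithConv (A →ₗ[k] k))) : ∃ N : ℕ, ∀ l : List (A →ₗ[k] k),
      l.length = N → (∀ f ∈ l, f 1 = 0) → ∀ a : A, l.foldr (hit k) a = 0 := by
  obtain ⟨N, hN⟩ := exists_coaug hA
  refine ⟨N, fun l hl h a => ?_⟩
  rw [foldr_hit, hN (l.reverse.map toConv) (by simpa using hl) (by
    intro f hf
    obtain ⟨g, hg, rfl⟩ := List.mem_map.1 hf
    exact h g (List.mem_reverse.1 hg))]
  unfold hit sl
  rw [ofConv_zero, LinearMap.rTensor_zero, LinearMap.comp_zero, LinearMap.zero_apply]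

/-- the adjoint action is an action -/
theorem adj_mul {B : Type u} [Ring B] [HopfAlgebra k B] (a b x : B) :
    adj k (a * b) x = adj k a (adj k b x) := by
  have h : ∀ s t : B ⊗[k] B, LinearMap.mul' k B (TensorProduct.map (LinearMap.mulRight k x)
      (HopfAlgebra.antipode k) (s * t)) = LinearMap.mul' k B (TensorProduct.map
      (LinearMap.mulRight k (LinearMap.mul' k B (TensorProduct.map (LinearMap.mulRight k x)
        (HopfAlgebra.antipode k) t))) (HopfAlgebra.antipode k) s) := by
    intro s t
    induction s using TensorProduct.induction_on with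
    | zero => simp
    | add s s' hs hs' => simp only [add_mul, map_add, hs, hs']
    | tmul a c =>
      induction t using TensorProduct.induction_on with
      | zero => simp
      | add t t' ht ht' =>
        rw [mul_add, map_add, map_add, ht, ht']
        simp only [TensorProduct.map_tmul, LinearMap.mul'_apply, LinearMap.mulRight_apply,
          map_add, mul_add, add_mul]
      | tmul b d =>
        simp only [Algebra.TensorProduct.tmul_mul_tmul, TensorProduct.map_tmul,
          LinearMap.mul'_apply, LinearMap.mulRight_apply,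
          HopfAlgebra.antipode_mul_antidistrib, mul_assoc]
  unfold adj
  rw [Bialgebra.comul_mul, h]

theorem foldr_adj {B : Type u} [Ring B] [HopfAlgebra k B] (x : B) (l : List B) :
    l.foldr (adj k) x = adj k l.prod x := by
  induction l with
  | nil => rw [List.prod_nil, adj_one]; rfl
  | cons a l ih => rw [List.foldr_cons, ih, List.prod_cons, adj_mul]

/-- The adjoint action of a local Hopf algebra is unipotent. -/
theorem exists_adnil {B : Type u} [Ring B] [HopfAlgebra k B] [Module.Finite k B]
    (hB : IsLocalRing B) : ∃ N : ℕ, ∀ l : List B, l.length = N →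
      (∀ b ∈ l, Coalgebra.counit (R := k) b = 0) → ∀ x : B, l.foldr (adj k) x = 0 := by
  obtain ⟨N, hN⟩ := exists_aug (k := k) hB
  refine ⟨N, fun l hl h x => ?_⟩
  rw [foldr_adj, hN l hl h, adj_eq_of, map_zero]

/-- The whole Hopf algebra. -/
theorem uni_top {B : Type u} [Ring B] [HopfAlgebra k B] [Module.Finite k B]
    (hB : IsLocalRing B) (hd : IsLocalRing (WithConv (B →ₗ[k] k))) :
    Uni k (⊤ : Submodule k B) where
  one := trivial
  coid := fun _ _ _ => trivial
  ad := fun _ _ _ => trivial
  adnil := by
    obtain ⟨N, hN⟩ := exists_adnil (k := k) hB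
    exact ⟨N, fun l hl h v _ => hN l hl h v⟩
  conil := by
    obtain ⟨N, hN⟩ := exists_conil hd
    exact ⟨N, fun l hl h v _ => hN l hl h v⟩

/-- A local Hopf algebra with local dual is a sequence of central extensions. -/
theorem iter_of_local {B : Type u} [Ring B] [HopfAlgebra k B] [Module.Finite k B]
    (hB : IsLocalRing B) (hd : IsLocalRing (WithConv (B →ₗ[k] k))) : IterCentral k k B := by
  refine iter_of_uni _ (Bialgebra.counitBialgHom k B) ?_ ⊤ (uni_top hB hd) ?_ rfl
  · intro c
    refine ⟨algebraMap k B c, ?_⟩
    exact Bialgebra.counit_algebraMap c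
  · intro b
    constructor
    · intro hb
      exact Ideal.subset_span ⟨trivial, hb⟩
    · intro hb
      refine Submodule.span_induction (p := fun x _ => Coalgebra.counit (R := k) x = 0)
        ?_ ?_ ?_ ?_ hb
      · rintro x ⟨_, hx⟩
        exact hx
      · exact map_zero _
      · intro x y _ _ h1 h2
        rw [map_add, h1, h2, add_zero]
      · intro r x _ h1
        rw [smul_eq_mul, Bialgebra.counit_mul, h1, mul_zero]

end

end Pool.Agent.Helper90.UN
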