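import Pool.Agent.Helper90.UN.ExtDefs
import Pool.Agent.Helper90.UN.Local

/-!
# Extensions of Hopf algebras with a unipotent adjoint action on the kernel
-/

set_option linter.unusedSectionVars false
set_option autoImplicit false

open scoped TensorProduct
open Pool.Agent.Helper90.FC WithConv

namespace Pool.Agent.Helper90.UN

universe u

section

variable {k : Type u} [Field k] {A B C : Type u} [Ring A] [Ring B] [Ring C] [HopfAlgebra k A]
  [HopfAlgebra k B] [HopfAlgebra k C]

theorem mem_range' (ι : A →ₐc[k] B) (a : A) :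
    ι a ∈ LinearMap.range ι.toCoalgHom.toLinearMap := ⟨a, rfl⟩

theorem uni_range (ι : A →ₐc[k] B) (π : B →ₐc[k] C) (h : UnipotentExact k ι π)
    [Module.Finite k A] (hA : IsLocalRing (WithConv (A →ₗ[k] k))) :
    Uni k (LinearMap.range ι.toCoalgHom.toLinearMap) where
  one := ⟨1, map_one ι⟩
  coid := by
    rintro f _ ⟨a, rfl⟩
    exact ⟨_, map_hit ι f a⟩
  ad := by
    rintro b _ ⟨a, rfl⟩
    obtain ⟨a', ha'⟩ := h.normal b a
    exact ⟨a', ha'⟩
  adnil := by
    obtain ⟨N, hN⟩ := h.unip
    refine ⟨N, ?_⟩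
    rintro l hl hb _ ⟨a, rfl⟩
    rw [foldr_adj]
    exact hN l hl hb a
  conil := by
    obtain ⟨N, hN⟩ := exists_conil hA
    refine ⟨N, ?_⟩
    rintro l hl hf _ ⟨a, rfl⟩
    change l.foldr (hit k) (ι a) = 0
    rw [foldr_map_hit, hN _ (by simpa using hl) ?_, map_zero]
    intro g hg
    obtain ⟨f, hf', rfl⟩ := List.mem_map.1 hg
    change f (ι 1) = 0
    rw [map_one]
    exact hf f hf'

/-- An extension with unipotent adjoint action on the kernel, whose kernel has a local dual, is a
sequence of central extensions. -/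
theorem iter_of_unipotent [Module.Finite k B] (ι : A →ₐc[k] B) (π : B →ₐc[k] C)
    (h : UnipotentExact k ι π) (hA : IsLocalRing (WithConv (A →ₗ[k] k))) :
    IterCentral k C B := by
  have hfin : Module.Finite k A :=
    Module.Finite.of_injective ι.toCoalgHom.toLinearMap h.inj
  refine iter_of_uni _ π h.surj _ (uni_range ι π h hA) ?_ rfl
  intro b
  rw [h.ker]
  have h1 : ι '' {a : A | Coalgebra.counit (R := k) a = 0} =
      {v : B | v ∈ LinearMap.range ι.toCoalgHom.toLinearMap ∧
        Coalgebra.counit (R := k) v = 0} := by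
    ext v
    constructor
    · rintro ⟨a, ha, rfl⟩
      exact ⟨mem_range' ι a, (map_counit ι a).trans ha⟩
    · rintro ⟨⟨a, rfl⟩, hv⟩
      exact ⟨a, (map_counit ι a).symm.trans hv, rfl⟩
  rw [h1]

end

end Pool.Agent.Helper90.UN
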