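import Mathlib
import Pool.Agent.Helper90.UN.Defs

/-!
# Extensions of Hopf algebras with a unipotent adjoint action on the kernel: definition
-/

set_option autoImplicit false

open scoped TensorProduct

namespace Pool.Agent.Helper90.UN

universe u

/-- `k → A → B → C → k` is an exact sequence of Hopf algebras (`ι` is injective, `π` is surjective,
`ι(A)` is stable under the left adjoint action of `B`, and the kernel of `π` is the left ideal of
`B` generated by the image of the augmentation ideal of `A`) and the adjoint action of `B` on
`ι(A)` is unipotent: for some `N`, every product of `N` elements of the augmentation ideal of `B`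
acts by zero on `ι(A)`. -/
structure UnipotentExact (k : Type u) [Field k] {A B C : Type u} [Ring A] [Ring B] [Ring C]
    [HopfAlgebra k A] [HopfAlgebra k B] [HopfAlgebra k C] (ι : A →ₐc[k] B) (π : B →ₐc[k] C) :
    Prop where
  inj : Function.Injective ι
  surj : Function.Surjective π
  normal : ∀ (b : B) (a : A), adj k b (ι a) ∈ Set.range ι
  ker : ∀ b : B, π b = 0 ↔
    b ∈ Ideal.span (ι '' {a : A | Coalgebra.counit (R := k) a = 0})
  unip : ∃ N : ℕ, ∀ l : List B, l.length = N →
    (∀ b ∈ l, Coalgebra.counit (R := k) b = 0) → ∀ a : A, adj k l.prod (ι a) = 0

end Pool.Agent.Helper90.UN
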